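import Mathlib
import Pool.Agent.V11132.MixedSetup

set_option autoImplicit false

/-!
MP_ca4ce9_co, Q1: every 2-connected graph `G` that is not a cycle satisfies
`mdim G ≤ 2 c(G)`.
-/

namespace Pool.Agent.Results.MP_ca4ce9_co.MixedTwiceCyclomatic

open SimpleGraph

variable {V : Type*}

/-- `d(s, x)` for an element `x` of `V(G) ∪ E(G)`: the graph distance if `x` is a vertex, and
`min {d(s,u), d(s,v)}` if `x` is the edge `uv`. -/
noncomputable def elemDist (G : SimpleGraph V) (s : V) : V ⊕ G.edgeSet → ℕ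
  | Sum.inl x => G.dist s x
  | Sum.inr e => Sym2.lift ⟨fun a b => min (G.dist s a) (G.dist s b), fun _ _ => min_comm _ _⟩ e.1

/-- mixed resolving sets: every two distinct elements of `V(G) ∪ E(G)` are distinguished -/
def MixedResolving (G : SimpleGraph V) (S : Finset V) : Prop :=
  ∀ x y : V ⊕ G.edgeSet, x ≠ y → ∃ s ∈ S, elemDist G s x ≠ elemDist G s y

/-- the mixed metric dimension: the least size of a mixed resolving set -/
noncomputable def mdim (G : SimpleGraph V) : ℕ :=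
  sInf {k | ∃ S : Finset V, S.card = k ∧ MixedResolving G S}

/-- the cyclomatic number `c(G) = m - n + 1` -/
noncomputable def cyclomatic [Fintype V] (G : SimpleGraph V) : ℤ :=
  (G.edgeSet.ncard : ℤ) - (Fintype.card V : ℤ) + 1

/-- at least three vertices, connected, and no cut-vertex -/
def TwoConnected [Fintype V] (G : SimpleGraph V) : Prop :=
  3 ≤ Fintype.card V ∧ G.Connected ∧ ∀ v, (G.induce {w | w ≠ v}).Connected

/-- `G` is a cycle `C_n` with `n ≥ 3` -/
def IsCycleGraph (G : SimpleGraph V) : Prop := ∃ n, 3 ≤ n ∧ Nonempty (G ≃g cycleGraph n)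

/-- Every 2-connected graph that is not a cycle has a mixed resolving set (so that `mdim` is
attained), and `mdim G ≤ 2 c(G)`. -/
theorem result {V : Type*} [Fintype V] (G : SimpleGraph V) (h2 : TwoConnected G)
    (hcyc : ¬ IsCycleGraph G) :
    (∃ S : Finset V, S.card = mdim G ∧ MixedResolving G S) ∧
      (mdim G : ℤ) ≤ 2 * cyclomatic G := by
  obtain ⟨h3, hconn, hcut⟩ := h2
  obtain ⟨S, hS, hgood⟩ := Pool.Agent.V11132.Mixed.main G h3 hconn hcut
    (fun n hn => ⟨fun φ => hcyc ⟨n, hn, ⟨φ⟩⟩⟩)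
  have hres : MixedResolving G S := by
    rintro (x | e) (y | f) hxy
    · obtain ⟨σ, hσ, h⟩ := hgood.1 x y (fun h => hxy (by rw [h]))
      exact ⟨σ, hσ, h⟩
    · obtain ⟨σ, hσ, h⟩ := hgood.2.1 x f.1 f.2
      exact ⟨σ, hσ, h⟩
    · obtain ⟨σ, hσ, h⟩ := hgood.2.1 y e.1 e.2
      exact ⟨σ, hσ, fun h' => h h'.symm⟩
    · obtain ⟨σ, hσ, h⟩ := hgood.2.2 e.1 f.1 e.2 f.2 (fun h => hxy (by rw [Subtype.ext h]))
      exact ⟨σ, hσ, h⟩
  have hmem : S.card ∈ {k | ∃ S : Finset V, S.card = k ∧ MixedResolving G S} := ⟨S, rfl, hres⟩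
  have hle : mdim G ≤ S.card := Nat.sInf_le hmem
  have hedge : Fintype.card V ≤ G.edgeSet.ncard + 1 := by
    have := hconn.card_vert_le_card_edgeSet_add_one
    simpa [Nat.card_eq_fintype_card] using this
  refine ⟨Nat.sInf_mem ⟨_, hmem⟩, ?_⟩
  unfold cyclomatic
  omega

end Pool.Agent.Results.MP_ca4ce9_co.MixedTwiceCyclomatic
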